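import Pool.Agent.H586.AF.D

/-!
Haar measure of the small balls of a closed subgroup of `U(N)` (project AG of helper586, task AG-HB,
by helper30; adapted from the `SU(2)` case of helper56).
-/

set_option autoImplicit false

open MeasureTheory Matrix Finset
open scoped Matrix.Norms.Frobenius

namespace Pool.Agent.H30.AG

open Pool.Agent.H586.AF.GG

noncomputable section

variable {N : ℕ} {G : Subgroup (UU N)}

theorem nsq (A : Mt N) : ‖A‖ ^ 2 = ∑ i, ∑ j, ‖A i j‖ ^ 2 := by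
  have h0 : 0 ≤ ∑ i, ∑ j, ‖A i j‖ ^ 2 :=
    Finset.sum_nonneg fun i _ => Finset.sum_nonneg fun j _ => sq_nonneg _
  rw [Matrix.frobenius_norm_def, ← Real.sqrt_eq_rpow]
  simp only [Real.rpow_two]
  exact Real.sq_sqrt h0

theorem ntr (A : Mt N) : ‖A‖ ^ 2 = (trace (Aᴴ * A)).re := by
  rw [nsq, Finset.sum_comm]
  unfold Matrix.trace
  rw [Complex.re_sum]
  refine Finset.sum_congr rfl fun j _ => ?_
  rw [Matrix.diag_apply, Matrix.mul_apply, Complex.re_sum]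
  refine Finset.sum_congr rfl fun i _ => ?_
  rw [Matrix.conjTranspose_apply]
  have h1 : star (A i j) * A i j = ((‖A i j‖ ^ 2 : ℝ) : ℂ) := by
    have := Complex.conj_mul' (A i j)
    rw [Complex.ofReal_pow]
    exact this
  rw [h1, Complex.ofReal_re]

/-- unitary invariance -/
theorem norm_unit (U A : Mt N) (hU : Uᴴ * U = 1) : ‖U * A‖ = ‖A‖ := by
  have h1 : ‖U * A‖ ^ 2 = ‖A‖ ^ 2 := by
    rw [ntr, ntr, Matrix.conjTranspose_mul, Matrix.mul_assoc, ← Matrix.mul_assoc Uᴴ U A, hU,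
      Matrix.one_mul]
  exact (sq_eq_sq₀ (norm_nonneg _) (norm_nonneg _)).1 h1

/-- The cell of a matrix in the grid of mesh `1 / n`. -/
def cell (n : ℕ) (g : G) : Fin N × Fin N → ℤ × ℤ :=
  fun p => (⌊(mt g p.1 p.2).re * n⌋, ⌊(mt g p.1 p.2).im * n⌋)

/-- All cells. -/
def cells (N n : ℕ) : Finset (Fin N × Fin N → ℤ × ℤ) :=
  Fintype.piFinset fun _ => Icc (-(n : ℤ)) n ×ˢ Icc (-(n : ℤ)) n

theorem card_cells (N n : ℕ) : (cells N n).card = (2 * n + 1) ^ (2 * N ^ 2) := by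
  have h : ((n : ℤ) + 1 - -(n : ℤ)).toNat = 2 * n + 1 := by omega
  rw [cells, Fintype.card_piFinset]
  rw [Finset.prod_const, Finset.card_univ, Fintype.card_prod, Fintype.card_fin, card_product,
    Int.card_Icc, h, ← sq, ← pow_mul]
  congr 1
  ring

theorem floor_mem (n : ℕ) (x : ℝ) (h : |x| ≤ 1) : ⌊x * n⌋ ∈ Icc (-(n : ℤ)) n := by
  obtain ⟨h2, h3⟩ := abs_le.1 h
  have hn : (0 : ℝ) ≤ n := Nat.cast_nonneg n
  rw [mem_Icc]
  constructor
  · rw [Int.le_floor]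
    push_cast
    nlinarith
  · have h4 : ((⌊x * n⌋ : ℤ) : ℝ) ≤ ((n : ℤ) : ℝ) := by
      refine (Int.floor_le _).trans ?_
      push_cast
      nlinarith
    exact_mod_cast h4

theorem cell_mem (n : ℕ) (g : G) : cell n g ∈ cells N n := by
  unfold cells cell
  rw [Fintype.mem_piFinset]
  intro p
  have h1 : ‖mt g p.1 p.2‖ ≤ 1 := entry_norm_bound_of_unitary (g : UU N).2 p.1 p.2
  rw [mem_product]
  exact ⟨floor_mem n _ ((Complex.abs_re_le_norm _).trans h1),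
    floor_mem n _ ((Complex.abs_im_le_norm _).trans h1)⟩

theorem diff_sq (n : ℕ) (hn : 0 < n) (x y : ℝ) (h : ⌊x * n⌋ = ⌊y * n⌋) :
    (x - y) ^ 2 ≤ (1 / (n : ℝ)) ^ 2 := by
  have hn' : (0 : ℝ) < n := by exact_mod_cast hn
  have h1 : |x * n - y * n| < 1 := Int.abs_sub_lt_one_of_floor_eq_floor h
  have h2 : |x - y| * n < 1 := by
    rw [← sub_mul, abs_mul, abs_of_pos hn'] at h1
    exact h1
  have h3 : |x - y| ≤ 1 / n := by
    rw [le_div_iff₀ hn']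
    exact h2.le
  rw [← sq_abs]
  exact pow_le_pow_left₀ (abs_nonneg _) h3 2

theorem dist_cell (n : ℕ) (hn : 0 < n) (r : ℝ) (hr : 0 < r) (hnr : 2 * ((N : ℝ) + 1) / r ≤ n)
    (g h : G) (hc : cell n g = cell n h) : ‖mt g - mt h‖ ≤ r := by
  have hn' : (0 : ℝ) < n := by exact_mod_cast hn
  have hN : (0 : ℝ) ≤ N := Nat.cast_nonneg N
  have h1 : 1 / (n : ℝ) * (2 * ((N : ℝ) + 1)) ≤ r := by
    rw [div_le_iff₀ hr] at hnr
    rw [one_div, inv_mul_le_iff₀ hn']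
    exact hnr
  have h2 : ∀ i j, ‖(mt g - mt h) i j‖ ^ 2 ≤ 2 * (1 / (n : ℝ)) ^ 2 := by
    intro i j
    have c := congrFun hc (i, j)
    unfold cell at c
    rw [Prod.mk.injEq] at c
    have d1 := diff_sq n hn _ _ c.1
    have d2 := diff_sq n hn _ _ c.2
    rw [Matrix.sub_apply, ← Complex.normSq_eq_norm_sq, Complex.normSq_apply, Complex.sub_re,
      Complex.sub_im]
    nlinarith
  have h3 : ‖mt g - mt h‖ ^ 2 ≤ N * (N * (2 * (1 / (n : ℝ)) ^ 2)) := by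
    rw [nsq]
    calc ∑ i, ∑ j, ‖((mt g : Mt N) - (mt h : Mt N)) i j‖ ^ 2 ≤ ∑ _i : Fin N, ∑ _j : Fin N, 2 * (1 / (n : ℝ)) ^ 2 :=
          Finset.sum_le_sum fun i _ => Finset.sum_le_sum fun j _ => h2 i j
      _ = N * (N * (2 * (1 / (n : ℝ)) ^ 2)) := by
          rw [Finset.sum_const, Finset.sum_const, Finset.card_univ, Fintype.card_fin,
            nsmul_eq_mul, nsmul_eq_mul]
  have h4 : (1 / (n : ℝ) * (2 * ((N : ℝ) + 1))) ^ 2 ≤ r ^ 2 := pow_le_pow_left₀ (by positivity) h1 2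
  have h5 : (N : ℝ) * (N * (2 * (1 / (n : ℝ)) ^ 2)) ≤ (1 / (n : ℝ) * (2 * ((N : ℝ) + 1))) ^ 2 := by
    have h6 : (1 / (n : ℝ) * (2 * ((N : ℝ) + 1))) ^ 2 - (N : ℝ) * (N * (2 * (1 / (n : ℝ)) ^ 2)) =
        (1 / (n : ℝ)) ^ 2 * (2 * (N : ℝ) ^ 2 + 8 * N + 4) := by ring
    have h7 : 0 ≤ (1 / (n : ℝ)) ^ 2 * (2 * (N : ℝ) ^ 2 + 8 * N + 4) := by positivity
    linarith
  exact (sq_le_sq₀ (norm_nonneg _) hr.le).1 (h3.trans (h5.trans h4))

theorem thb : S_HB := by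
  intro N G _ _ _
  have hN : (0 : ℝ) ≤ N := Nat.cast_nonneg N
  refine ⟨((4 * (N : ℝ) + 7) ^ (2 * N ^ 2))⁻¹, by positivity, ?_, ?_⟩
  · apply inv_le_one_of_one_le₀
    exact one_le_pow₀ (by linarith)
  intro μ _ _ r hr hr1
  set B : Set G := {g : G | ‖mt g - 1‖ ≤ r} with hB
  obtain ⟨n, hn1, hn2⟩ : ∃ n : ℕ, 2 * ((N : ℝ) + 1) / r ≤ n ∧ (n : ℝ) < 2 * ((N : ℝ) + 1) / r + 1 :=
    ⟨⌈2 * ((N : ℝ) + 1) / r⌉₊, Nat.le_ceil _, Nat.ceil_lt_add_one (by positivity)⟩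
  have hn : 0 < n := by
    have : (0 : ℝ) < n := lt_of_lt_of_le (by positivity) hn1
    exact_mod_cast this
  have hA : ∀ q, μ {g : G | cell n g = q} ≤ μ B := by
    intro q
    rcases Set.eq_empty_or_nonempty {g : G | cell n g = q} with h | ⟨g₀, hg₀⟩
    · rw [h, measure_empty]
      exact bot_le
    · have h1 : {g : G | cell n g = q} ⊆ (fun g => g₀⁻¹ * g) ⁻¹' B := by
        intro g hg
        have h2 : ‖mt g - mt g₀‖ ≤ r := dist_cell n hn r hr hn1 g g₀ (hg.trans hg₀.symm)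
        show ‖mt (g₀⁻¹ * g) - 1‖ ≤ r
        have hu : mt g₀ * (mt g₀)ᴴ = 1 := Matrix.mem_unitaryGroup_iff.1 (g₀ : UU N).2
        have hu' : (mt g₀)ᴴ * mt g₀ = 1 := Matrix.mem_unitaryGroup_iff'.1 (g₀ : UU N).2
        have h3 : mt (g₀⁻¹ * g) = (mt g₀)ᴴ * mt g := rfl
        have h4 : mt (g₀⁻¹ * g) - 1 = (mt g₀)ᴴ * (mt g - mt g₀) := by
          rw [h3, Matrix.mul_sub, hu']
        rw [h4, norm_unit _ _ (by rw [Matrix.conjTranspose_conjTranspose]; exact hu)]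
        exact h2
      calc μ {g : G | cell n g = q} ≤ μ ((fun g => g₀⁻¹ * g) ⁻¹' B) := measure_mono h1
        _ = μ B := measure_preimage_mul μ g₀⁻¹ B
  have h1 : (1 : ENNReal) ≤ ((cells N n).card : ENNReal) * μ B := by
    have h2 : (Set.univ : Set G) ⊆ ⋃ q ∈ cells N n, {g : G | cell n g = q} := by
      intro g _
      exact Set.mem_biUnion (cell_mem n g) (show cell n g = cell n g from rfl)
    calc (1 : ENNReal) = μ Set.univ := (measure_univ).symm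
      _ ≤ μ (⋃ q ∈ cells N n, {g : G | cell n g = q}) := measure_mono h2
      _ ≤ ∑ q ∈ cells N n, μ {g : G | cell n g = q} := measure_biUnion_finset_le _ _
      _ ≤ ∑ _q ∈ cells N n, μ B := Finset.sum_le_sum fun q _ => hA q
      _ = ((cells N n).card : ENNReal) * μ B := by rw [Finset.sum_const, nsmul_eq_mul]
  have h2 : (1 : ℝ) ≤ (((2 * n + 1) ^ (2 * N ^ 2) : ℕ) : ℝ) * μ.real B := by
    rw [card_cells] at h1
    have h3 := ENNReal.toReal_mono (by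
      exact ENNReal.mul_ne_top (ENNReal.natCast_ne_top _) (measure_ne_top μ B)) h1
    rw [ENNReal.toReal_mul, ENNReal.toReal_natCast, ENNReal.toReal_one] at h3
    exact h3
  have h3 : ((((2 * n + 1) ^ (2 * N ^ 2) : ℕ) : ℝ)) ≤ ((4 * (N : ℝ) + 7) / r) ^ (2 * N ^ 2) := by
    push_cast
    refine pow_le_pow_left₀ (by positivity) ?_ _
    have h4 : (1 : ℝ) ≤ 1 / r := by
      rw [le_div_iff₀ hr]; linarith
    have h5 : (4 * (N : ℝ) + 7) / r = 2 * (2 * ((N : ℝ) + 1) / r) + 3 * (1 / r) := by ring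
    rw [h5]
    linarith
  have h4 : (1 : ℝ) ≤ ((4 * (N : ℝ) + 7) / r) ^ (2 * N ^ 2) * μ.real B :=
    h2.trans (mul_le_mul_of_nonneg_right h3 measureReal_nonneg)
  have hr0 : 0 < r ^ (2 * N ^ 2) := by positivity
  rw [div_pow, div_mul_eq_mul_div, le_div_iff₀ hr0, one_mul] at h4
  rw [inv_mul_le_iff₀ (by positivity)]
  exact h4

end

end Pool.Agent.H30.AG
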